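import Pool.Agent.V1132.CN.KGen

set_option autoImplicit false

/-! Let `R` be any ring and `G` any group. In every class of `K₁(RG)` there are invertible matrices
whose support pattern has operator norm arbitrarily close to `3 / √2`. For a class which does not
lie in the subgroup generated by the images of the groups `K₁(RV)`, `V` virtually cyclic, the least
such norm is exactly `3 / √2`. -/

namespace Pool.Agent.Results.MP_f7db47_al.CriticalPattern

open TH57.Thr TH6.PF Pool.Agent.V1132.CN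

/-- The class of `A` in `K₁(RG)` contains a matrix whose support pattern has norm at most `c`. -/
def HasRep {R : Type} [Ring R] {G : Type} [Group G] {n : ℕ}
    (A : (Matrix (Fin n) (Fin n) (MonoidAlgebra R G))ˣ) (c : ℝ) : Prop :=
  ∃ (m : ℕ) (B : (Matrix (Fin m) (Fin m) (MonoidAlgebra R G))ˣ),
    SameK A B ∧ ThinLE (B : Matrix (Fin m) (Fin m) (MonoidAlgebra R G)) c

/-- The least norm of the support patterns of the matrices in the class of `A`. -/
noncomputable def patNorm {R : Type} [Ring R] {G : Type} [Group G] {n : ℕ}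
    (A : (Matrix (Fin n) (Fin n) (MonoidAlgebra R G))ˣ) : ℝ :=
  sInf {c : ℝ | 0 ≤ c ∧ HasRep A c}

/-- `K₁(RG)` is generated by the images of the groups `K₁(RV)`, `V` virtually cyclic. -/
def AllFromVC (R : Type) [Ring R] (G : Type) [Group G] : Prop :=
  ∀ (n : ℕ) (A : (Matrix (Fin n) (Fin n) (MonoidAlgebra R G))ˣ), FromVC A

/-- The classes of the matrices of pattern norm at most `c` lie in that subgroup. -/
def ThinFromVC (R : Type) [Ring R] (G : Type) [Group G] (c : ℝ) : Prop :=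
  ∀ (n : ℕ) (A : (Matrix (Fin n) (Fin n) (MonoidAlgebra R G))ˣ),
    ThinLE (A : Matrix (Fin n) (Fin n) (MonoidAlgebra R G)) c → FromVC A

theorem hasRep {R : Type} [Ring R] {G : Type} [Group G] {n : ℕ}
    (A : (Matrix (Fin n) (Fin n) (MonoidAlgebra R G))ˣ) (c : ℝ) (hc : 3 / Real.sqrt 2 < c) :
    HasRep A c := by
  obtain ⟨m, C, hC, hN⟩ := thin_red_fin A c (sq_gt_of_gt hc).2
  have e : Fin (n + m) ≃ Fin n ⊕ Fin m := finSumFinEquiv.symm
  obtain ⟨B0, hB0⟩ : ∃ B0, B0 = Units.map (stm (Fin m)) A * C := ⟨_, rfl⟩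
  refine ⟨n + m, Units.map (re e) B0, SameK_of_SC _ _ ?_, ?_⟩
  · refine ⟨Fin m, Fin 0, inferInstance, inferInstance, inferInstance, inferInstance,
      e.symm.trans (Equiv.sumEmpty _ (Fin 0)).symm, C⁻¹, inv_mem hC, ?_⟩
    rw [re_trans', re_empty]
    have h3 : Units.map (re e.symm) (Units.map (re e) B0) = B0 := re_self e.symm B0
    rw [h3, hB0, mul_inv_cancel_right]
  · refine thinLE_re e _ c ?_
    rw [hB0]
    exact hN

theorem below {R : Type} [Ring R] {G : Type} [Group G] {n : ℕ}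
    (A : (Matrix (Fin n) (Fin n) (MonoidAlgebra R G))ˣ) (c : ℝ) (h0 : 0 ≤ c)
    (hc : c < 3 / Real.sqrt 2) (h : HasRep A c) : FromVC A := by
  have h1 : (1 : ℝ) < 3 / Real.sqrt 2 := by
    by_contra h
    push Not at h
    have h2 : (3 / Real.sqrt 2) ^ 2 ≤ 1 ^ 2 := pow_le_pow_left₀ thr_pos.le h 2
    rw [thr_sq] at h2
    norm_num at h2
  obtain ⟨m, B, hAB, hB⟩ := h
  have hmax : ThinLE (B : Matrix (Fin m) (Fin m) (MonoidAlgebra R G)) (max c 1) := fun x =>
    (hB x).trans (mul_le_mul_of_nonneg_right (pow_le_pow_left₀ h0 (le_max_left _ _) 2) (by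
      unfold normSq
      exact Finset.sum_nonneg fun _ _ => Finset.sum_nonneg fun _ _ => sq_nonneg _))
  have h2 := (thin_below B (max c 1) (lt_max_of_lt_right one_pos)
    (sq_lt_of_lt (le_max_of_le_left h0) (max_lt hc h1)) hmax).1
  exact TW_fromVC A (TW_SC A B (SC_of_SameK A B hAB) (TW_of_mem B (Subgroup.mem_sup_left h2)))

theorem result :
    -- every ring, every group, every invertible matrix
    (∀ (R : Type) [Ring R] (G : Type) [Group G] (n : ℕ)
      (A : (Matrix (Fin n) (Fin n) (MonoidAlgebra R G))ˣ),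
        (∀ c : ℝ, 3 / Real.sqrt 2 < c → HasRep A c) ∧
        0 ≤ patNorm A ∧ patNorm A ≤ 3 / Real.sqrt 2 ∧
        (¬ FromVC A → patNorm A = 3 / Real.sqrt 2)) ∧
    -- above `3 / √2` a bound on the pattern is no restriction, below it the conclusion holds
    (∀ (R : Type) [Ring R] (G : Type) [Group G] (c : ℝ), 0 ≤ c →
      (3 / Real.sqrt 2 < c → (ThinFromVC R G c ↔ AllFromVC R G)) ∧
      (c < 3 / Real.sqrt 2 → ThinFromVC R G c)) := by
  have up : ∀ (R : Type) [Ring R] (G : Type) [Group G] (n : ℕ)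
      (A : (Matrix (Fin n) (Fin n) (MonoidAlgebra R G))ˣ) (c : ℝ), 3 / Real.sqrt 2 < c →
      c ∈ {c : ℝ | 0 ≤ c ∧ HasRep A c} := fun R _ G _ n A c hc =>
    ⟨(sq_gt_of_gt hc).1.le, hasRep A c hc⟩
  refine ⟨fun R _ G _ n A => ⟨fun c hc => hasRep A c hc, Real.sInf_nonneg fun c hc => hc.1,
    sInf_le_thr (fun c hc => hc.1) _ (up R G n A), fun hA => ?_⟩, fun R _ G _ c h0 =>
    ⟨fun hc => ⟨fun h n A => ?_, fun h n A _ => h n A⟩, fun hc n A hA => ?_⟩⟩
  · refine sInf_thr (fun c hc => hc.1) _ (up R G n A) ?_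
    rintro c ⟨h0, h⟩
    by_contra hlt
    exact hA (below A c h0 (not_le.1 hlt) h)
  · obtain ⟨m, B, hAB, hB⟩ := hasRep A c hc
    exact TW_fromVC A (TW_SC A B (SC_of_SameK A B hAB) (fromVC_TW B (h m B hB)))
  · refine below A c h0 hc ⟨n, A, ⟨0, 0, Equiv.refl _, 1, one_mem _, ?_⟩, hA⟩
    simp

end Pool.Agent.Results.MP_f7db47_al.CriticalPattern
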